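import Pool.Agent.TH464.PO.Comb
import Pool.Agent.Y862.JL.Stm

/-!
# The joint Poisson law from the joint factorial moments
-/

set_option autoImplicit false

namespace Pool.Agent.Y406.JL

open Finset
open Pool.Agent.TH464.PO
open Pool.Agent.Y862.JL (S_JLAW)

/-- perturbation of a product -/
lemma prod_pert {ι : Type} (s : Finset ι) (X Y e : ι → ℝ) (h0 : ∀ i ∈ s, 0 ≤ X i)
    (h1 : ∀ i ∈ s, X i ≤ 1) (h : ∀ i ∈ s, |X i - Y i| ≤ e i) :
    |∏ i ∈ s, X i - ∏ i ∈ s, Y i| ≤ ∏ i ∈ s, (1 + e i) - 1 := by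
  classical
  induction s using Finset.induction_on with
  | empty => simp
  | @insert a s ha ih =>
    rw [prod_insert ha, prod_insert ha, prod_insert ha]
    have ih' := ih (fun i hi => h0 i (mem_insert_of_mem hi)) (fun i hi => h1 i (mem_insert_of_mem hi))
      (fun i hi => h i (mem_insert_of_mem hi))
    have hX0 : 0 ≤ ∏ i ∈ s, X i := prod_nonneg fun i hi => h0 i (mem_insert_of_mem hi)
    have hX1 : ∏ i ∈ s, X i ≤ 1 :=
      prod_le_one (fun i hi => h0 i (mem_insert_of_mem hi)) fun i hi => h1 i (mem_insert_of_mem hi)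
    have ha0 := h0 a (mem_insert_self _ _)
    have ha1 := h1 a (mem_insert_self _ _)
    have hae := h a (mem_insert_self _ _)
    have he0 : 0 ≤ e a := (abs_nonneg _).trans hae
    generalize ∏ i ∈ s, X i = PX at *
    generalize ∏ i ∈ s, Y i = PY at *
    generalize ∏ i ∈ s, (1 + e i) = E at *
    have e1 : X a * PX - Y a * PY = X a * (PX - PY) + (X a - Y a) * PY := by ring
    have hPY : |PY| ≤ E := by
      have e2 : PY = PX - (PX - PY) := by ring
      have h3 : |PY| ≤ |PX| + |PX - PY| := by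
        calc |PY| = |PX - (PX - PY)| := by rw [← e2]
          _ ≤ _ := abs_sub _ _
      rw [abs_of_nonneg hX0] at h3
      linarith
    rw [e1]
    refine (abs_add_le _ _).trans ?_
    rw [abs_mul, abs_mul, abs_of_nonneg ha0]
    have h4 : X a * |PX - PY| ≤ 1 * |PX - PY| := mul_le_mul_of_nonneg_right ha1 (abs_nonneg _)
    have h5 : |X a - Y a| * |PY| ≤ e a * E := mul_le_mul hae hPY (abs_nonneg _) he0
    linarith

/-- products of linear combinations of binomial coefficients -/
lemma lin {k : ℕ} (R : ℕ) (η : ℝ) (Om : Finset ℕ) (N : Fin k → ℕ → ℕ) (x : Fin k → ℝ)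
    (h : ∀ r : Fin k → ℕ, (∀ i, r i < R) →
      |∑ n ∈ Om, ∏ i, ((N i n).choose (r i) : ℝ) - Om.card * ∏ i, (x i ^ r i / (r i).factorial)| ≤
        η * Om.card) (c : Fin k → ℕ → ℝ) :
    |∑ n ∈ Om, ∏ i, ∑ r ∈ range R, c i r * ((N i n).choose r : ℝ) -
      Om.card * ∏ i, ∑ r ∈ range R, c i r * (x i ^ r / r.factorial)| ≤
      η * Om.card * ∏ i, ∑ r ∈ range R, |c i r| := by
  simp_rw [Finset.prod_univ_sum]
  rw [Finset.sum_comm, Finset.mul_sum, ← Finset.sum_sub_distrib, Finset.mul_sum]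
  refine (Finset.abs_sum_le_sum_abs _ _).trans (Finset.sum_le_sum fun r hr => ?_)
  rw [Fintype.mem_piFinset] at hr
  simp_rw [Finset.prod_mul_distrib]
  rw [← Finset.mul_sum]
  have h1 := h r (fun i => mem_range.1 (hr i))
  have e : (∏ i, c i (r i)) * ∑ n ∈ Om, ∏ i, ((N i n).choose (r i) : ℝ) -
      Om.card * ((∏ i, c i (r i)) * ∏ i, (x i ^ r i / (r i).factorial)) =
      (∏ i, c i (r i)) * (∑ n ∈ Om, ∏ i, ((N i n).choose (r i) : ℝ) -
        Om.card * ∏ i, (x i ^ r i / (r i).factorial)) := by ring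
  rw [e, abs_mul, Finset.abs_prod, mul_comm]
  exact mul_le_mul_of_nonneg_right h1 (prod_nonneg fun _ _ => abs_nonneg _)

/-- coefficients of the truncated indicator -/
noncomputable def cc (a m r : ℕ) : ℝ :=
  if r ∈ Ico a (a + (m + 1)) then (-1) ^ (r - a) * (r.choose a : ℝ) else 0

/-- coefficients of the majorant -/
noncomputable def dd (a m r : ℕ) : ℝ :=
  (if r = 0 then 1 else 0) + if r = m + 1 + a then ((m + 1 + a).choose a : ℝ) else 0

lemma cc_sum {a m R : ℕ} (h : a + (m + 1) ≤ R) (g : ℕ → ℝ) :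
    ∑ r ∈ range R, cc a m r * g r =
      ∑ i ∈ range (m + 1), (-1) ^ i * (((i + a).choose a : ℝ) * g (i + a)) := by
  have h1 : ∑ r ∈ Ico a (a + (m + 1)), cc a m r * g r = ∑ r ∈ range R, cc a m r * g r := by
    apply Finset.sum_subset
    · intro r hr
      rw [mem_Ico] at hr
      rw [mem_range]
      omega
    · intro r _ hr
      unfold cc
      rw [if_neg hr, zero_mul]
  rw [← h1, Finset.sum_Ico_eq_sum_range, show a + (m + 1) - a = m + 1 by omega]
  refine Finset.sum_congr rfl fun i hi => ?_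
  rw [mem_range] at hi
  unfold cc
  rw [if_pos (by rw [mem_Ico]; omega), show a + i - a = i by omega, add_comm a i]
  ring

lemma dd_sum {a m R : ℕ} (h : m + 1 + a < R) (g : ℕ → ℝ) :
    ∑ r ∈ range R, dd a m r * g r = g 0 + ((m + 1 + a).choose a : ℝ) * g (m + 1 + a) := by
  unfold dd
  simp_rw [add_mul]
  rw [Finset.sum_add_distrib]
  congr 1
  · rw [Finset.sum_eq_single 0]
    · simp
    · intro b _ hb
      rw [if_neg hb, zero_mul]
    · intro hb
      rw [mem_range] at hb
      omega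
  · rw [Finset.sum_eq_single (m + 1 + a)]
    · simp
    · intro b _ hb
      rw [if_neg hb, zero_mul]
    · intro hb
      rw [mem_range] at hb
      omega

lemma choose_le {r a R : ℕ} (h : r ≤ R) : (r.choose a : ℝ) ≤ 2 ^ R := by
  have h1 : r.choose a ≤ 2 ^ R := (Nat.choose_le_two_pow r a).trans
    (Nat.pow_le_pow_right (by norm_num) h)
  exact_mod_cast h1

lemma cc_abs {a m R : ℕ} : ∑ r ∈ range R, |cc a m r| ≤ R * (2 ^ R + 1) := by
  have h1 : ∀ r ∈ range R, |cc a m r| ≤ 2 ^ R + 1 := by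
    intro r hr
    rw [mem_range] at hr
    unfold cc
    split_ifs
    · rw [abs_mul, abs_pow, abs_neg, abs_one, one_pow, one_mul, Nat.abs_cast]
      have := choose_le (a := a) hr.le
      linarith
    · rw [abs_zero]
      positivity
  refine (Finset.sum_le_sum h1).trans ?_
  rw [Finset.sum_const, card_range, nsmul_eq_mul]

lemma dd_abs {a m R : ℕ} (h : m + 1 + a < R) : ∑ r ∈ range R, |dd a m r| ≤ R * (2 ^ R + 1) := by
  have h1 : ∀ r ∈ range R, |dd a m r| ≤ 2 ^ R + 1 := by
    intro r hr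
    unfold dd
    have h2 : |if r = m + 1 + a then ((m + 1 + a).choose a : ℝ) else 0| ≤ 2 ^ R := by
      split_ifs
      · rw [Nat.abs_cast]
        exact choose_le h.le
      · rw [abs_zero]
        positivity
    have h3 : |if r = 0 then (1 : ℝ) else 0| ≤ 1 := by
      split_ifs <;> simp
    exact (abs_add_le _ _).trans (by linarith)
  refine (Finset.sum_le_sum h1).trans ?_
  rw [Finset.sum_const, card_range, nsmul_eq_mul]

lemma prod_le_pow' {k : ℕ} (f : Fin k → ℝ) (B : ℝ) (h0 : ∀ i, 0 ≤ f i) (h : ∀ i, f i ≤ B) :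
    ∏ i, f i ≤ B ^ k := by
  calc ∏ i, f i ≤ ∏ _i : Fin k, B := prod_le_prod (fun i _ => h0 i) fun i _ => h i
    _ = B ^ k := by rw [prod_const, card_univ, Fintype.card_fin]

lemma pw_le_one {x : ℝ} (hx : 0 ≤ x) (a : ℕ) : Real.exp (-x) * x ^ a / a.factorial ≤ 1 := by
  have h := poisson_tail x hx 0 {a} (fun _ _ => Nat.zero_le _)
  rw [sum_singleton] at h
  simpa using h

/-- one vector -/
lemma one_vec {k : ℕ} (R : ℕ) (η : ℝ) (hη : 0 ≤ η) (Om : Finset ℕ) (N : Fin k → ℕ → ℕ)
    (x : Fin k → ℝ) (hx : ∀ i, 0 ≤ x i)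
    (h : ∀ r : Fin k → ℕ, (∀ i, r i < R) →
      |∑ n ∈ Om, ∏ i, ((N i n).choose (r i) : ℝ) - Om.card * ∏ i, (x i ^ r i / (r i).factorial)| ≤
        η * Om.card) (a : Fin k → ℕ) (m : ℕ) (ha : ∀ i, m + 1 + a i < R) (F : ℝ)
    (hF : ∀ i, ((m + 1 + a i).choose (a i) : ℝ) * (x i ^ (m + 1 + a i) / (m + 1 + a i).factorial) *
      Real.exp (x i) ≤ F) :
    |((Om.filter (fun n => (fun i => N i n) = a)).card : ℝ) -
      Om.card * ∏ i, (Real.exp (-x i) * x i ^ a i / (a i).factorial)| ≤
      (2 * ((1 + F) ^ k - 1) + 2 * (η * (R * (2 ^ R + 1)) ^ k)) * Om.card := by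
  have hO : (0 : ℝ) ≤ Om.card := Nat.cast_nonneg _
  have hηO : 0 ≤ η * Om.card := mul_nonneg hη hO
  -- the truncated indicators
  have e1 : ((Om.filter (fun n => (fun i => N i n) = a)).card : ℝ) =
      ∑ n ∈ Om, ∏ i, (if N i n = a i then (1 : ℝ) else 0) := by
    rw [card_filter]
    push_cast
    refine sum_congr rfl fun n _ => ?_
    rw [prod_boole]
    congr 1
    simp [funext_iff]
  have h1 : |∑ n ∈ Om, ∏ i, (if N i n = a i then (1 : ℝ) else 0) -
      ∑ n ∈ Om, ∏ i, ∑ r ∈ range R, cc (a i) m r * ((N i n).choose r : ℝ)| ≤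
      ∑ n ∈ Om, (∏ i, ∑ r ∈ range R, dd (a i) m r * ((N i n).choose r : ℝ) - 1) := by
    rw [← sum_sub_distrib]
    refine (abs_sum_le_sum_abs _ _).trans (sum_le_sum fun n _ => ?_)
    have h2 := prod_pert (univ : Finset (Fin k)) (fun i => if N i n = a i then (1 : ℝ) else 0)
      (fun i => ∑ r ∈ range R, cc (a i) m r * ((N i n).choose r : ℝ))
      (fun i => ((m + 1 + a i).choose (a i) : ℝ) * ((N i n).choose (m + 1 + a i) : ℝ))
      (fun i _ => by split_ifs <;> norm_num) (fun i _ => by split_ifs <;> norm_num)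
      (fun i _ => by
        rw [cc_sum (by have := ha i; omega)]
        exact bonf_eq (N i n) (a i) m)
    refine h2.trans (le_of_eq ?_)
    congr 1
    refine prod_congr rfl fun i _ => ?_
    rw [dd_sum (ha i)]
    simp
  -- the moments
  have h3 := lin R η Om N x h (fun i => cc (a i) m)
  have h4 := lin R η Om N x h (fun i => dd (a i) m)
  have h5 : ∏ i, ∑ r ∈ range R, |cc (a i) m r| ≤ ((R : ℝ) * (2 ^ R + 1)) ^ k :=
    prod_le_pow' _ _ (fun i => sum_nonneg fun _ _ => abs_nonneg _) fun i => cc_abs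
  have h6 : ∏ i, ∑ r ∈ range R, |dd (a i) m r| ≤ ((R : ℝ) * (2 ^ R + 1)) ^ k :=
    prod_le_pow' _ _ (fun i => sum_nonneg fun _ _ => abs_nonneg _) fun i => dd_abs (ha i)
  have h7 : ∏ i, ∑ r ∈ range R, dd (a i) m r * (x i ^ r / r.factorial) ≤ (1 + F) ^ k := by
    have h8 : ∀ i, ∑ r ∈ range R, dd (a i) m r * (x i ^ r / r.factorial) =
        1 + ((m + 1 + a i).choose (a i) : ℝ) * (x i ^ (m + 1 + a i) / (m + 1 + a i).factorial) := by
      intro i
      rw [dd_sum (ha i) (fun r => x i ^ r / r.factorial)]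
      simp
    refine prod_le_pow' _ _ (fun i => ?_) fun i => ?_
    · rw [h8]
      have := hx i
      positivity
    · rw [h8]
      have h9 := hF i
      have h10 : 1 ≤ Real.exp (x i) := Real.one_le_exp (hx i)
      have h11 : 0 ≤ ((m + 1 + a i).choose (a i) : ℝ) *
          (x i ^ (m + 1 + a i) / (m + 1 + a i).factorial) := by
        have := hx i
        positivity
      nlinarith
  -- the Poisson law
  have h8 : |∏ i, (Real.exp (-x i) * x i ^ a i / (a i).factorial) -
      ∏ i, ∑ r ∈ range R, cc (a i) m r * (x i ^ r / r.factorial)| ≤ (1 + F) ^ k - 1 := by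
    have h9 := prod_pert (univ : Finset (Fin k))
      (fun i => Real.exp (-x i) * x i ^ a i / (a i).factorial)
      (fun i => ∑ r ∈ range R, cc (a i) m r * (x i ^ r / r.factorial))
      (fun i => ((m + 1 + a i).choose (a i) : ℝ) * (x i ^ (m + 1 + a i) / (m + 1 + a i).factorial) *
        Real.exp (x i))
      (fun i _ => by have := hx i; positivity) (fun i _ => pw_le_one (hx i) _)
      (fun i _ => by
        rw [cc_sum (by have := ha i; omega) (fun r => x i ^ r / r.factorial)]
        exact bonf_poisson (x i) (hx i) (a i) m)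
    refine h9.trans ?_
    have h10 := prod_le_pow' (fun i : Fin k => 1 + ((m + 1 + a i).choose (a i) : ℝ) *
      (x i ^ (m + 1 + a i) / (m + 1 + a i).factorial) * Real.exp (x i)) (1 + F)
      (fun i => by have := hx i; positivity) (fun i => by have := hF i; linarith)
    linarith
  rw [e1]
  rw [sum_sub_distrib, sum_const, nsmul_eq_mul, mul_one] at h1
  have k3 := mul_le_mul_of_nonneg_left h5 hηO
  have k4 := mul_le_mul_of_nonneg_left h6 hηO
  have k7 := mul_le_mul_of_nonneg_left h7 hO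
  have k8 := mul_le_mul_of_nonneg_left h8 hO
  have k4' := (abs_le.1 h4).2
  have e3 : (Om.card : ℝ) * |∏ i, (Real.exp (-x i) * x i ^ a i / (a i).factorial) -
      ∏ i, ∑ r ∈ range R, cc (a i) m r * (x i ^ r / r.factorial)| =
      |(Om.card : ℝ) * ∏ i, ∑ r ∈ range R, cc (a i) m r * (x i ^ r / r.factorial) -
      Om.card * ∏ i, (Real.exp (-x i) * x i ^ a i / (a i).factorial)| := by
    rw [← mul_sub, abs_mul, abs_of_nonneg hO, abs_sub_comm]
  rw [e3] at k8
  refine (abs_sub_le _ (∑ n ∈ Om, ∏ i, ∑ r ∈ range R, cc (a i) m r * ((N i n).choose r : ℝ))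
    _).trans ?_
  have k9 := abs_sub_le (∑ n ∈ Om, ∏ i, ∑ r ∈ range R, cc (a i) m r * ((N i n).choose r : ℝ))
    (Om.card * ∏ i, ∑ r ∈ range R, cc (a i) m r * (x i ^ r / r.factorial))
    (Om.card * ∏ i, (Real.exp (-x i) * x i ^ a i / (a i).factorial))
  linarith

lemma one_sub_prod {ι : Type} (S : Finset ι) (s : ι → ℝ) (h0 : ∀ i, 0 ≤ s i)
    (h1 : ∀ i, s i ≤ 1) : 1 - ∏ i ∈ S, s i ≤ ∑ i ∈ S, (1 - s i) := by
  classical
  induction S using Finset.induction_on with
  | empty => simp
  | @insert a S ha ih =>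
    rw [prod_insert ha, sum_insert ha]
    have hP : ∏ i ∈ S, s i ≤ 1 := prod_le_one (fun i _ => h0 i) fun i _ => h1 i
    have h2 : s a * (1 - ∏ i ∈ S, s i) ≤ 1 * (1 - ∏ i ∈ S, s i) :=
      mul_le_mul_of_nonneg_right (h1 a) (by linarith)
    linarith

/-- bound of the error term -/
lemma err_le {x x0 y φ : ℝ} {J m a : ℕ} (hx : 0 ≤ x) (hxx : x ≤ x0) (hyx : x0 ≤ y) (hy1 : 1 ≤ y)
    (haJ : a < J) (hm : y ^ J * Real.exp x0 * (y ^ (m + 1) / (m + 1).factorial) ≤ φ) :
    ((m + 1 + a).choose a : ℝ) * (x ^ (m + 1 + a) / (m + 1 + a).factorial) * Real.exp x ≤ φ := by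
  refine le_trans ?_ hm
  have h3 := Nat.add_choose_mul_factorial_mul_factorial (m + 1) a
  have h3' : ((m + 1 + a).choose a : ℝ) * (m + 1).factorial * a.factorial =
      (m + 1 + a).factorial := by exact_mod_cast h3
  have h4 : ((m + 1 + a).choose a : ℝ) ≠ 0 := by
    have : 0 < (m + 1 + a).choose a := Nat.choose_pos (by omega)
    positivity
  have h5 : ((m + 1 + a).choose a : ℝ) * (x ^ (m + 1 + a) / (m + 1 + a).factorial) =
      x ^ (m + 1 + a) / ((m + 1).factorial * a.factorial) := by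
    rw [← h3']
    field_simp
  rw [h5]
  have h6 : x ^ (m + 1 + a) / ((m + 1).factorial * a.factorial) ≤
      y ^ (m + 1 + J) / (m + 1).factorial := by
    have hf1 : (1 : ℝ) ≤ a.factorial := by exact_mod_cast Nat.factorial_pos a
    have hf2 : (0 : ℝ) < (m + 1).factorial := by exact_mod_cast Nat.factorial_pos (m + 1)
    apply div_le_div₀ (by positivity) _ hf2 (by nlinarith)
    calc x ^ (m + 1 + a) ≤ y ^ (m + 1 + a) := pow_le_pow_left₀ hx (hxx.trans hyx) _
      _ ≤ y ^ (m + 1 + J) := pow_le_pow_right₀ hy1 (by omega)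
  calc x ^ (m + 1 + a) / ((m + 1).factorial * a.factorial) * Real.exp x ≤
      y ^ (m + 1 + J) / (m + 1).factorial * Real.exp x0 :=
        mul_le_mul h6 (Real.exp_le_exp.2 hxx) (Real.exp_pos _).le (by positivity)
    _ = _ := by
      rw [pow_add]
      ring

theorem t_JLAW : S_JLAW := by
  classical
  intro k x0 ε hx0 hε
  obtain ⟨J1, hJ1⟩ := exists_small x0 k (ε / 4) (by positivity)
  obtain ⟨J2, hJ2⟩ : ∃ J : ℕ, (k * (x0 + 1)) / (ε / 4) ≤ J := exists_nat_ge _
  obtain ⟨J, hJ⟩ : ∃ J : ℕ, J = max (max J1 J2) 1 := ⟨_, rfl⟩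
  have hJJ1 : J1 ≤ J := by omega
  have hJJ2 : J2 ≤ J := by omega
  have hJ0 : 1 ≤ J := by omega
  have hJr : (0 : ℝ) < J := by exact_mod_cast hJ0
  have hJr2 : (k * (x0 + 1)) / (ε / 4) ≤ J := hJ2.trans (by exact_mod_cast hJJ2)
  obtain ⟨y, hy⟩ : ∃ y : ℝ, y = max x0 1 := ⟨_, rfl⟩
  have hy1 : 1 ≤ y := by rw [hy]; exact le_max_right _ _
  have hyx : x0 ≤ y := by rw [hy]; exact le_max_left _ _
  obtain ⟨φ, hφ0, hφ⟩ : ∃ φ : ℝ, 0 < φ ∧ (J : ℝ) ^ k * (2 * ((1 + φ) ^ k - 1)) ≤ ε / 4 := by
    have h1 : Filter.Tendsto (fun φ : ℝ => (J : ℝ) ^ k * (2 * ((1 + φ) ^ k - 1)))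
        (nhdsWithin 0 (Set.Ioi 0)) (nhds 0) := by
      have h0 : Continuous (fun φ : ℝ => (J : ℝ) ^ k * (2 * ((1 + φ) ^ k - 1))) := by fun_prop
      have h2 := h0.tendsto 0
      simp only [add_zero, one_pow, sub_self, mul_zero] at h2
      exact h2.mono_left nhdsWithin_le_nhds
    have h3 := (h1.eventually (ge_mem_nhds (by positivity : (0 : ℝ) < ε / 4))).and
      self_mem_nhdsWithin
    obtain ⟨φ, a, b⟩ := h3.exists
    exact ⟨φ, b, a⟩
  obtain ⟨m, hm⟩ := exists_small y (y ^ J * Real.exp x0) φ hφ0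
  have hm' := hm (m + 1) (by omega)
  obtain ⟨R, hR⟩ : ∃ R : ℕ, R = J + m + 1 := ⟨_, rfl⟩
  obtain ⟨G, hG⟩ : ∃ G : ℝ, G = ((R : ℝ) * (2 ^ R + 1)) ^ k := ⟨_, rfl⟩
  have hG0 : 0 ≤ G := by rw [hG]; positivity
  obtain ⟨η, hη⟩ : ∃ η : ℝ, η = min 1 (ε / (8 * (J ^ k * G + 1))) := ⟨_, rfl⟩
  have hη0 : 0 < η := by rw [hη]; positivity
  have hη1 : η ≤ 1 := by rw [hη]; exact min_le_left _ _
  have hη2 : (J : ℝ) ^ k * (2 * (η * G)) ≤ ε / 4 := by
    have h1 : η ≤ ε / (8 * (J ^ k * G + 1)) := by rw [hη]; exact min_le_right _ _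
    rw [le_div_iff₀ (by positivity)] at h1
    nlinarith
  refine ⟨R, η, hη0, ?_⟩
  intro Om N x hx h A
  have hcard : (0 : ℝ) ≤ Om.card := Nat.cast_nonneg _
  have hP0 : ∀ (i : Fin k) (r : ℕ), 0 ≤ Real.exp (-x i) * x i ^ r / r.factorial := fun i r => by
    have := (hx i).1
    positivity
  have hPP0 : ∀ a : Fin k → ℕ, 0 ≤ ∏ i, (Real.exp (-x i) * x i ^ a i / (a i).factorial) :=
    fun a => prod_nonneg fun i _ => hP0 i _
  obtain ⟨A1, hA1⟩ : ∃ A1, A1 = A.filter (fun a => ∀ i, a i < J) := ⟨_, rfl⟩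
  obtain ⟨A2, hA2⟩ : ∃ A2, A2 = A.filter (fun a => ¬ ∀ i, a i < J) := ⟨_, rfl⟩
  have hA1sub : A1 ⊆ Fintype.piFinset (fun _ => range J) := by
    intro a ha
    rw [hA1, mem_filter] at ha
    rw [Fintype.mem_piFinset]
    exact fun i => mem_range.2 (ha.2 i)
  have hA1card : (A1.card : ℝ) ≤ (J : ℝ) ^ k := by
    have h1 := card_le_card hA1sub
    rw [Fintype.card_piFinset_const, card_range] at h1
    exact_mod_cast h1
  have hone : ∀ a ∈ A1, |((Om.filter (fun n => (fun i => N i n) = a)).card : ℝ) -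
      Om.card * ∏ i, (Real.exp (-x i) * x i ^ a i / (a i).factorial)| ≤
      (2 * ((1 + φ) ^ k - 1) + 2 * (η * G)) * Om.card := by
    intro a ha
    rw [hA1, mem_filter] at ha
    rw [hG]
    exact one_vec R η hη0.le Om N x (fun i => (hx i).1) h a m
      (fun i => by have := ha.2 i; omega) φ
      (fun i => err_le (hx i).1 (hx i).2 hyx hy1 (ha.2 i) hm')
  have hsmall : |((Om.filter (fun n => (fun i => N i n) ∈ A1)).card : ℝ) -
      Om.card * ∑ a ∈ A1, ∏ i, (Real.exp (-x i) * x i ^ a i / (a i).factorial)| ≤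
      (ε / 2) * Om.card := by
    have e1 : ((Om.filter (fun n => (fun i => N i n) ∈ A1)).card : ℝ) =
        ∑ a ∈ A1, ((Om.filter (fun n => (fun i => N i n) = a)).card : ℝ) := by
      have : (Om.filter (fun n => (fun i => N i n) ∈ A1)).card =
          ∑ a ∈ A1, (Om.filter (fun n => (fun i => N i n) = a)).card := by
        rw [Finset.card_eq_sum_card_fiberwise (f := fun n => (fun i => N i n)) (t := A1)]
        · apply Finset.sum_congr rfl
          intro a ha
          congr 1
          ext n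
          rw [mem_filter, mem_filter, mem_filter]
          constructor
          · rintro ⟨⟨a1, _⟩, a3⟩
            exact ⟨a1, a3⟩
          · rintro ⟨a1, a3⟩
            exact ⟨⟨a1, by rw [a3]; exact ha⟩, a3⟩
        · intro n hn
          rw [Finset.mem_coe, mem_filter] at hn
          exact hn.2
      rw [this]
      push_cast
      rfl
    rw [e1, Finset.mul_sum, ← Finset.sum_sub_distrib]
    refine (Finset.abs_sum_le_sum_abs _ _).trans ((Finset.sum_le_sum hone).trans ?_)
    rw [Finset.sum_const, nsmul_eq_mul, ← mul_assoc]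
    apply mul_le_mul_of_nonneg_right _ hcard
    have h1 : 0 ≤ 2 * ((1 + φ) ^ k - 1) + 2 * (η * G) := by
      have : 1 ≤ (1 + φ) ^ k := one_le_pow₀ (by linarith)
      have := mul_nonneg hη0.le hG0
      linarith
    have h2 := mul_le_mul_of_nonneg_right hA1card h1
    linarith
  -- large values
  have hlarge : ((Om.filter (fun n => (fun i => N i n) ∈ A2)).card : ℝ) ≤ ε / 4 * Om.card := by
    have h1 : ((Om.filter (fun n => (fun i => N i n) ∈ A2)).card : ℝ) ≤
        ((Om.filter (fun n => J ≤ ∑ i, N i n)).card : ℝ) := by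
      have : (Om.filter (fun n => (fun i => N i n) ∈ A2)).card ≤
          (Om.filter (fun n => J ≤ ∑ i, N i n)).card := by
        apply card_le_card
        intro n hn
        rw [mem_filter] at hn ⊢
        refine ⟨hn.1, ?_⟩
        have h2 := hn.2
        rw [hA2, mem_filter] at h2
        have h3 := h2.2
        push Not at h3
        obtain ⟨i, hi⟩ := h3
        exact hi.trans (Finset.single_le_sum (f := fun i => N i n) (fun _ _ => Nat.zero_le _)
          (mem_univ i))
      exact_mod_cast this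
    refine h1.trans ?_
    have h2 : ∑ n ∈ Om, ((∑ i, N i n : ℕ) : ℝ) ≤ k * (x0 + 1) * Om.card := by
      push_cast
      rw [Finset.sum_comm]
      have h3 : ∀ i : Fin k, ∑ n ∈ Om, (N i n : ℝ) ≤ (x0 + 1) * Om.card := by
        intro i
        have h4 := h (fun j => if j = i then 1 else 0) (fun j => by
          split_ifs <;> omega)
        have h5 : ∀ n, ∏ j, ((N j n).choose (if j = i then 1 else 0) : ℝ) = N i n := by
          intro n
          rw [Finset.prod_eq_single i]
          · simp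
          · intro j _ hj
            simp [hj]
          · intro hi
            exact absurd (mem_univ i) hi
        have h6 : ∏ j, (x j ^ (if j = i then 1 else 0) /
            ((if j = i then 1 else 0 : ℕ).factorial : ℝ)) = x i := by
          rw [Finset.prod_eq_single i]
          · simp
          · intro j _ hj
            simp [hj]
          · intro hi
            exact absurd (mem_univ i) hi
        simp only [h5, h6] at h4
        have h7 := (abs_le.1 h4).2
        have h8 := mul_le_mul_of_nonneg_right (hx i).2 hcard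
        have h9 := mul_le_mul_of_nonneg_right hη1 hcard
        linarith
      calc ∑ i, ∑ n ∈ Om, (N i n : ℝ) ≤ ∑ _i : Fin k, (x0 + 1) * Om.card :=
            sum_le_sum fun i _ => h3 i
        _ = _ := by
          rw [sum_const, card_univ, Fintype.card_fin, nsmul_eq_mul]
          ring
    have h3 := markov Om (fun n => ∑ i, N i n) J _ h2
    rw [div_le_iff₀ (by positivity)] at hJr2
    have h4 : ((Om.filter (fun n => J ≤ ∑ i, N i n)).card : ℝ) * J ≤ (ε / 4 * Om.card) * J := by
      refine h3.trans ?_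
      calc k * (x0 + 1) * Om.card ≤ (J * (ε / 4)) * Om.card := by gcongr
        _ = _ := by ring
    exact le_of_mul_le_mul_right h4 hJr
  have hlarge2 : ∑ a ∈ A2, ∏ i, (Real.exp (-x i) * x i ^ a i / (a i).factorial) ≤ ε / 4 := by
    obtain ⟨L, hL⟩ : ∃ L : ℕ, L = ∑ a ∈ A2, ∑ i, a i + J + 1 := ⟨_, rfl⟩
    have hA2L : A2 ⊆ Fintype.piFinset (fun _ => range L) := by
      intro a ha
      rw [Fintype.mem_piFinset]
      intro i
      rw [mem_range, hL]
      have h1 : a i ≤ ∑ i, a i := Finset.single_le_sum (f := a) (fun _ _ => Nat.zero_le _) (mem_univ i)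
      have h2 : ∑ i, a i ≤ ∑ a ∈ A2, ∑ i, a i :=
        Finset.single_le_sum (f := fun a : Fin k → ℕ => ∑ i, a i) (fun _ _ => Nat.zero_le _) ha
      omega
    have hbox : (Fintype.piFinset (fun _ : Fin k => range J)) ⊆
        Fintype.piFinset (fun _ : Fin k => range L) := by
      apply Fintype.piFinset_subset
      intro i r hr
      rw [mem_range] at hr ⊢
      omega
    have hdis : Disjoint A2 (Fintype.piFinset (fun _ : Fin k => range J)) := by
      rw [Finset.disjoint_left]
      intro a ha ha'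
      rw [hA2, mem_filter] at ha
      rw [Fintype.mem_piFinset] at ha'
      exact ha.2 fun i => mem_range.1 (ha' i)
    have h1 : ∑ a ∈ A2, ∏ i, (Real.exp (-x i) * x i ^ a i / (a i).factorial) +
        ∑ a ∈ Fintype.piFinset (fun _ : Fin k => range J),
          ∏ i, (Real.exp (-x i) * x i ^ a i / (a i).factorial) ≤
        ∑ a ∈ Fintype.piFinset (fun _ : Fin k => range L),
          ∏ i, (Real.exp (-x i) * x i ^ a i / (a i).factorial) := by
      rw [← Finset.sum_union hdis]
      exact Finset.sum_le_sum_of_subset_of_nonneg (union_subset hA2L hbox) fun a _ _ => hPP0 a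
    have h2 : ∀ L : ℕ, ∑ a ∈ Fintype.piFinset (fun _ : Fin k => range L),
          ∏ i, (Real.exp (-x i) * x i ^ a i / (a i).factorial) =
        ∏ i, ∑ r ∈ range L, (Real.exp (-x i) * x i ^ r / r.factorial) := by
      intro L
      rw [Finset.prod_univ_sum]
    have h3 : ∀ (L : ℕ) (i : Fin k), ∑ r ∈ range L, (Real.exp (-x i) * x i ^ r / r.factorial) ≤ 1 := by
      intro L i
      have := poisson_tail (x i) (hx i).1 0 (range L) (fun _ _ => Nat.zero_le _)
      simpa using this
    have h4 : ∏ i, ∑ r ∈ range L, (Real.exp (-x i) * x i ^ r / r.factorial) ≤ 1 :=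
      prod_le_one (fun i _ => sum_nonneg fun r _ => hP0 i r) fun i _ => h3 L i
    have h5 := one_sub_prod (univ : Finset (Fin k))
      (fun i => ∑ r ∈ range J, (Real.exp (-x i) * x i ^ r / r.factorial))
      (fun i => sum_nonneg fun r _ => hP0 i r) (fun i => h3 J i)
    have h6 : ∀ i : Fin k, 1 - ∑ r ∈ range J, (Real.exp (-x i) * x i ^ r / r.factorial) ≤
        x0 ^ J / J.factorial := by
      intro i
      have h7 := exp_tail (x i) (hx i).1 J
      have h8 : ∑ r ∈ range J, (Real.exp (-x i) * x i ^ r / r.factorial) =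
          Real.exp (-x i) * ∑ r ∈ range J, (x i ^ r / (r.factorial : ℝ)) := by
        rw [Finset.mul_sum]
        refine sum_congr rfl fun r _ => ?_
        ring
      have h9 := mul_le_mul_of_nonneg_left h7 (Real.exp_pos (-x i)).le
      have h10 : Real.exp (-x i) * Real.exp (x i) = 1 := by rw [← Real.exp_add]; simp
      rw [mul_sub, h10, ← h8] at h9
      refine h9.trans ?_
      calc Real.exp (-x i) * (x i ^ J / J.factorial * Real.exp (x i)) =
            x i ^ J / J.factorial * (Real.exp (-x i) * Real.exp (x i)) := by ring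
        _ = x i ^ J / J.factorial := by rw [h10, mul_one]
        _ ≤ x0 ^ J / J.factorial := by
          have := (hx i).1
          have := (hx i).2
          gcongr
    have h7 : ∑ i : Fin k, (1 - ∑ r ∈ range J, (Real.exp (-x i) * x i ^ r / r.factorial)) ≤
        k * (x0 ^ J / J.factorial) := by
      refine (sum_le_sum fun i _ => h6 i).trans (le_of_eq ?_)
      rw [sum_const, card_univ, Fintype.card_fin, nsmul_eq_mul]
    have h8 := hJ1 J hJJ1
    rw [h2, h2] at h1
    linarith
  have hlarge20 : 0 ≤ ∑ a ∈ A2, ∏ i, (Real.exp (-x i) * x i ^ a i / (a i).factorial) :=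
    Finset.sum_nonneg fun a _ => hPP0 a
  have hsplit1 : ((Om.filter (fun n => (fun i => N i n) ∈ A)).card : ℝ) =
      ((Om.filter (fun n => (fun i => N i n) ∈ A1)).card : ℝ) +
        ((Om.filter (fun n => (fun i => N i n) ∈ A2)).card : ℝ) := by
    have : (Om.filter (fun n => (fun i => N i n) ∈ A)).card =
      (Om.filter (fun n => (fun i => N i n) ∈ A1)).card +
        (Om.filter (fun n => (fun i => N i n) ∈ A2)).card := by
      rw [← card_union_of_disjoint]
      · congr 1
        ext n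
        rw [mem_union, mem_filter, mem_filter, mem_filter, hA1, hA2, mem_filter, mem_filter]
        tauto
      · rw [Finset.disjoint_left]
        intro n hn hn'
        rw [mem_filter, hA1, mem_filter] at hn
        rw [mem_filter, hA2, mem_filter] at hn'
        exact hn'.2.2 hn.2.2
    exact_mod_cast this
  have hsplit2 : ∑ a ∈ A, ∏ i, (Real.exp (-x i) * x i ^ a i / ((a i).factorial : ℝ)) =
      ∑ a ∈ A1, ∏ i, (Real.exp (-x i) * x i ^ a i / ((a i).factorial : ℝ)) +
        ∑ a ∈ A2, ∏ i, (Real.exp (-x i) * x i ^ a i / ((a i).factorial : ℝ)) := by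
    rw [hA1, hA2]
    exact (Finset.sum_filter_add_sum_filter_not _ _ _).symm
  rw [hsplit1, hsplit2, abs_le]
  obtain ⟨a1, a2⟩ := abs_le.1 hsmall
  have hl0 : (0 : ℝ) ≤ ((Om.filter (fun n => (fun i => N i n) ∈ A2)).card : ℝ) :=
    Nat.cast_nonneg _
  have h9 := mul_le_mul_of_nonneg_left hlarge2 hcard
  have h10 := mul_nonneg hcard hlarge20
  have h11 : 0 ≤ ε * Om.card := by positivity
  constructor
  · rw [mul_add]
    linarith
  · rw [mul_add]
    linarith

end Pool.Agent.Y406.JL
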